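import Mathlib

/-!
# Vanishing Gauss-Bonnet-Chern mass does not imply flatness

For every `n ≥ 5` we give a complete asymptotically flat metric on `ℝⁿ`, of decay order
`τ > (n - 4) / 3`, whose Gauss-Bonnet curvature `L₂` vanishes identically, whose
Gauss-Bonnet-Chern mass is zero, whose scalar curvature is positive everywhere, and which is not
isometric to Euclidean space.  The metric is

`g = N² dx₀² + dx₁² + ... + dx_{n-1}²`,  `N = 1 + (1 + |x|²)^{-m}`,  `m = ⌊(n - 3) / 2⌋`.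

Its curvature tensor is `-N` times the Kulkarni-Nomizu product of the Euclidean Hessian of `N`
with `dx₀ ⊗ dx₀` (lemma `Rm_G`), which forces `L₂ = 0` and `P^{ijkl} ∂_l g_{jk} = 0`, whatever
the positive function `N` is.
-/

open scoped ContDiff
open Filter Topology MeasureTheory

namespace Pool.Agent.Results.MP_f5d73e_gt.LapseCounterexample

/-! ### Definitions: Riemannian geometry of `ℝⁿ` in its standard global coordinates -/

/-- `ℝⁿ`. -/
abbrev E (n : ℕ) := EuclideanSpace ℝ (Fin n)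

/-- A field of `n × n` matrices `g_{ij}(x)` on `ℝⁿ`. -/
abbrev MetricField (n : ℕ) := E n → Matrix (Fin n) (Fin n) ℝ

/-- The coordinate derivative `∂_i f`. -/
noncomputable def pd {n : ℕ} (i : Fin n) (f : E n → ℝ) (x : E n) : ℝ :=
  fderiv ℝ f x (EuclideanSpace.single i 1)

/-- `g` is a smooth Riemannian metric: smooth coefficients, symmetric positive definite at every
point. -/
def IsRiemannian {n : ℕ} (g : MetricField n) : Prop :=
  (∀ i j, ContDiff ℝ ∞ (fun x => g x i j)) ∧ ∀ x, (g x).PosDef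

/-- The inverse metric `g^{ij}`. -/
noncomputable def ginv {n : ℕ} (g : MetricField n) (x : E n) : Matrix (Fin n) (Fin n) ℝ := (g x)⁻¹

/-- Christoffel symbols `Γ^k_{ij} = ½ Σ_l g^{kl} (∂_i g_{jl} + ∂_j g_{il} - ∂_l g_{ij})`. -/
noncomputable def Gam {n : ℕ} (g : MetricField n) (k i j : Fin n) (x : E n) : ℝ :=
  1 / 2 * ∑ l, ginv g x k l *
    (pd i (fun y => g y j l) x + pd j (fun y => g y i l) x - pd l (fun y => g y i j) x)

/-- Curvature: `R(∂_i, ∂_j) ∂_k = Σ_l (RmUp g l k i j) ∂_l`, where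
`R(X, Y) = ∇_X ∇_Y - ∇_Y ∇_X - ∇_{[X, Y]}`. -/
noncomputable def RmUp {n : ℕ} (g : MetricField n) (l k i j : Fin n) (x : E n) : ℝ :=
  pd i (Gam g l j k) x - pd j (Gam g l i k) x
    + ∑ m, (Gam g l i m x * Gam g m j k x - Gam g l j m x * Gam g m i k x)

/-- `R_{ijkl} = g(R(∂_i, ∂_j) ∂_l, ∂_k)`; with this convention `R_{ijij}` is the sectional
curvature of the `(i, j)`-plane for an orthonormal pair. -/
noncomputable def Rm {n : ℕ} (g : MetricField n) (i j k l : Fin n) (x : E n) : ℝ :=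
  ∑ m, g x k m * RmUp g m l i j x

/-- Ricci tensor `R_{jl} = g^{ik} R_{ijkl}`. -/
noncomputable def Ric {n : ℕ} (g : MetricField n) (j l : Fin n) (x : E n) : ℝ :=
  ∑ i, ∑ k, ginv g x i k * Rm g i j k l x

/-- Scalar curvature `R = g^{jl} R_{jl}`. -/
noncomputable def Scal {n : ℕ} (g : MetricField n) (x : E n) : ℝ :=
  ∑ j, ∑ l, ginv g x j l * Ric g j l x

/-- Contravariant curvature `R^{ijkl}`. -/
noncomputable def RmC {n : ℕ} (g : MetricField n) (i j k l : Fin n) (x : E n) : ℝ :=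
  ∑ a, ∑ b, ∑ c, ∑ d, ginv g x i a * ginv g x j b * ginv g x k c * ginv g x l d * Rm g a b c d x

/-- Contravariant Ricci tensor `R^{jl}`. -/
noncomputable def RicC {n : ℕ} (g : MetricField n) (j l : Fin n) (x : E n) : ℝ :=
  ∑ a, ∑ b, ginv g x j a * ginv g x l b * Ric g a b x

/-- `P^{ijkl} = R^{ijkl} + R^{jk} g^{il} - R^{jl} g^{ik} - R^{ik} g^{jl} + R^{il} g^{jk}
  + ½ R (g^{ik} g^{jl} - g^{il} g^{jk})`. -/
noncomputable def P {n : ℕ} (g : MetricField n) (i j k l : Fin n) (x : E n) : ℝ :=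
  RmC g i j k l x + RicC g j k x * ginv g x i l - RicC g j l x * ginv g x i k
    - RicC g i k x * ginv g x j l + RicC g i l x * ginv g x j k
    + 1 / 2 * Scal g x * (ginv g x i k * ginv g x j l - ginv g x i l * ginv g x j k)

/-- The Gauss-Bonnet curvature `L₂ = P^{ijkl} R_{ijkl}`. -/
noncomputable def L2 {n : ℕ} (g : MetricField n) (x : E n) : ℝ :=
  ∑ i, ∑ j, ∑ k, ∑ l, P g i j k l x * Rm g i j k l x

/-- `L₂` is integrable with respect to the Riemannian volume. -/
def IntegrableL2 {n : ℕ} (g : MetricField n) : Prop :=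
  Integrable (fun x => L2 g x * √((g x).det)) (volume : Measure (E n))

/-- Asymptotic flatness of order `τ` in the standard coordinates: outside a ball,
`g_{ij} - δ_{ij} = O(r^{-τ})`, `∂g_{ij} = O(r^{-τ-1})`, `∂²g_{ij} = O(r^{-τ-2})`. -/
def IsAsymptoticallyFlat {n : ℕ} (g : MetricField n) (τ : ℝ) : Prop :=
  ∃ C R : ℝ, 0 < R ∧ ∀ x, R ≤ ‖x‖ → ∀ i j k l,
    |g x i j - (1 : Matrix (Fin n) (Fin n) ℝ) i j| ≤ C * ‖x‖ ^ (-τ) ∧
    |pd k (fun y => g y i j) x| ≤ C * ‖x‖ ^ (-τ - 1) ∧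
    |pd k (pd l (fun y => g y i j)) x| ≤ C * ‖x‖ ^ (-τ - 2)

/-- The `g`-length of a curve `γ` on `[0, 1]`. -/
noncomputable def length {n : ℕ} (g : MetricField n) (γ : ℝ → E n) : ℝ :=
  ∫ t in (0:ℝ)..1, √(∑ i, ∑ j, g (γ t) i j * deriv γ t i * deriv γ t j)

/-- The Riemannian distance: the infimum of the lengths of `C¹` curves from `x` to `y`. -/
noncomputable def gdist {n : ℕ} (g : MetricField n) (x y : E n) : ℝ :=
  sInf {L : ℝ | ∃ γ : ℝ → E n, ContDiff ℝ 1 γ ∧ γ 0 = x ∧ γ 1 = y ∧ L = length g γ}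

/-- `(ℝⁿ, g)` is complete: every sequence which is Cauchy for the Riemannian distance converges
for it. -/
def IsComplete {n : ℕ} (g : MetricField n) : Prop :=
  ∀ u : ℕ → E n, (∀ ε > 0, ∃ K, ∀ p ≥ K, ∀ q ≥ K, gdist g (u p) (u q) < ε) →
    ∃ y, ∀ ε > 0, ∃ K, ∀ p ≥ K, gdist g (u p) y < ε

/-- The flux `∫_{S_r} P^{ijkl} ∂_l g_{jk} ν_i dS` through the sphere `S_r = {|x| = r}`, written
over the unit sphere (`x = r ν`, `dS = r^{n-1} dν`). -/
noncomputable def flux {n : ℕ} (g : MetricField n) (r : ℝ) : ℝ :=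
  r ^ (n - 1) * ∫ ν : Metric.sphere (0 : E n) 1,
    (∑ i, ∑ j, ∑ k, ∑ l, P g i j k l (r • (ν : E n)) * pd l (fun y => g y j k) (r • (ν : E n))
      * (ν : E n) i) ∂((volume : Measure (E n)).toSphere)

/-- `ω_{n-1}`, the volume of the unit sphere `S^{n-1}`. -/
noncomputable def omega (n : ℕ) : ℝ := ((volume : Measure (E n)).toSphere Set.univ).toReal

/-- `c₂(n) = (n - 4)! / (2 (n - 1)! ω_{n-1})`. -/
noncomputable def c2 (n : ℕ) : ℝ := (n - 4).factorial / (2 * (n - 1).factorial * omega n)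

/-- The Gauss-Bonnet-Chern mass of `g` exists and equals `m`. -/
def HasGBCMass {n : ℕ} (g : MetricField n) (m : ℝ) : Prop :=
  Tendsto (fun r => c2 n * flux g r) atTop (𝓝 m)

/-- `(ℝⁿ, g)` is isometric to Euclidean `ℝⁿ`: `g` is the pull-back of the Euclidean metric by a
diffeomorphism `Φ`. -/
def IsIsometricToEuclidean {n : ℕ} (g : MetricField n) : Prop :=
  ∃ Φ : E n ≃ E n, ContDiff ℝ ∞ Φ ∧ ContDiff ℝ ∞ Φ.symm ∧
    ∀ x i j, g x i j = inner ℝ (fderiv ℝ Φ x (EuclideanSpace.single i 1))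
      (fderiv ℝ Φ x (EuclideanSpace.single j 1))

/-! ### calculus -/

section calculus
variable {n : ℕ} {f h : E n → ℝ} {x : E n}

lemma pd_const (i : Fin n) (c : ℝ) (x : E n) : pd i (fun _ => c) x = 0 := by simp [pd]

lemma pd_add (i : Fin n) (hf : DifferentiableAt ℝ f x) (hh : DifferentiableAt ℝ h x) :
    pd i (fun y => f y + h y) x = pd i f x + pd i h x := by
  simp [pd, fderiv_fun_add hf hh]

lemma pd_sub (i : Fin n) (hf : DifferentiableAt ℝ f x) (hh : DifferentiableAt ℝ h x) :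
    pd i (fun y => f y - h y) x = pd i f x - pd i h x := by
  simp [pd, fderiv_fun_sub hf hh]

lemma pd_mul (i : Fin n) (hf : DifferentiableAt ℝ f x) (hh : DifferentiableAt ℝ h x) :
    pd i (fun y => f y * h y) x = pd i f x * h x + f x * pd i h x := by
  simp [pd, fderiv_fun_mul hf hh]; ring

lemma pd_const_mul (i : Fin n) (c : ℝ) (hf : DifferentiableAt ℝ f x) :
    pd i (fun y => c * f y) x = c * pd i f x := by
  simp [pd, fderiv_const_mul hf]

lemma pd_inv (i : Fin n) (hf : DifferentiableAt ℝ f x) (h0 : f x ≠ 0) :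
    pd i (fun y => (f y)⁻¹) x = - pd i f x / f x ^ 2 := by
  have h1 : HasFDerivAt (fun y => (f y)⁻¹) (-(f x ^ 2)⁻¹ • fderiv ℝ f x) x :=
    (hasDerivAt_inv h0).comp_hasFDerivAt x hf.hasFDerivAt
  simp [pd, h1.fderiv]; ring

lemma contDiff_pd (i : Fin n) (hf : ContDiff ℝ ∞ f) : ContDiff ℝ ∞ (pd i f) := by
  unfold pd
  exact (hf.fderiv_right (m := ∞) (by simp)).clm_apply contDiff_const

lemma pd_comm (i j : Fin n) (hf : ContDiff ℝ ∞ f) (x : E n) : pd i (pd j f) x = pd j (pd i f) x := by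
  have hd : DifferentiableAt ℝ (fderiv ℝ f) x :=
    ((hf.fderiv_right (m := ∞) (by simp)).differentiable (by simp)) x
  have key : ∀ a b : Fin n, pd a (pd b f) x =
      (fderiv ℝ (fderiv ℝ f) x (EuclideanSpace.single a 1)) (EuclideanSpace.single b 1) := by
    intro a b
    have h1 : HasFDerivAt (fun y => fderiv ℝ f y (EuclideanSpace.single b 1))
        ((fderiv ℝ (fderiv ℝ f) x).flip (EuclideanSpace.single b 1)) x := by
      have := hd.hasFDerivAt.clm_apply (hasFDerivAt_const (EuclideanSpace.single b (1:ℝ)) x)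
      simpa using this
    show fderiv ℝ (fun y => fderiv ℝ f y (EuclideanSpace.single b 1)) x (EuclideanSpace.single a 1) = _
    rw [h1.fderiv]
    rfl
  rw [key, key]
  have hs : IsSymmSndFDerivAt ℝ f x := by
    apply hf.contDiffAt.isSymmSndFDerivAt
    simp only [minSmoothness_of_isRCLikeNormedField]
    exact ENat.LEInfty.out
  exact hs _ _

end calculus


/-! ### the lapse metric -/

section lapse
variable {n : ℕ} (o : Fin n) (N : E n → ℝ)

/-- `N² dx_o² + Σ_{a ≠ o} dx_a²` -/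
noncomputable def G : MetricField n := fun x => Matrix.diagonal (fun i => if i = o then N x ^ 2 else 1)

noncomputable def ell (i : Fin n) : ℝ := if i = o then 1 else 0

lemma G_apply (x : E n) (i j : Fin n) :
    G o N x i j = (if i = j then 1 else 0) + ell o i * ell o j * (N x ^ 2 - 1) := by
  unfold G ell
  by_cases h : i = j
  · subst h
    by_cases h2 : i = o <;> simp [h2]
  · rw [Matrix.diagonal_apply_ne _ h]
    by_cases h2 : i = o
    · subst h2
      simp [h, Ne.symm h]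
    · simp [h, h2]

variable {N}

lemma ginv_G (hN : ∀ x, 0 < N x) (x : E n) :
    ginv (G o N) x = Matrix.diagonal (fun i => if i = o then (N x ^ 2)⁻¹ else 1) := by
  unfold ginv G
  apply Matrix.inv_eq_right_inv
  rw [Matrix.diagonal_mul_diagonal, ← Matrix.diagonal_one]
  congr 1
  funext i
  have := (hN x).ne'
  by_cases h : i = o
  · simp only [h, if_true]; field_simp
  · simp [h]

lemma pd_G (hN : ContDiff ℝ ∞ N) (i j k : Fin n) (x : E n) :
    pd i (fun y => G o N y j k) x = ell o j * ell o k * (2 * N x * pd i N x) := by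
  have hd : DifferentiableAt ℝ N x := (hN.differentiable (by simp)) x
  have e : (fun y => G o N y j k) = fun y => (if j = k then 1 else 0) +
      (ell o j * ell o k) * (N y * N y - 1) := by
    funext y; rw [G_apply]; ring
  rw [e, pd_add _ (by fun_prop) (by fun_prop), pd_const, pd_const_mul _ _ (by fun_prop),
    pd_sub _ (by fun_prop) (by fun_prop), pd_mul _ hd hd, pd_const]
  ring

lemma Gam_G (hN : ContDiff ℝ ∞ N) (hp : ∀ x, 0 < N x) (k i j : Fin n) (x : E n) :
    Gam (G o N) k i j x = ell o k * (pd i N x * ell o j + pd j N x * ell o i) * (N x)⁻¹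
      - ell o i * ell o j * (ell o k * (pd k N x * (N x)⁻¹) + (1 - ell o k) * (N x * pd k N x)) := by
  unfold Gam
  rw [ginv_G o hp]
  simp only [pd_G o hN]
  rw [Finset.sum_eq_single k]
  · have := (hp x).ne'
    rw [Matrix.diagonal_apply_eq]
    by_cases h : k = o
    · simp only [h, ell, if_true]; field_simp; ring
    · simp only [h, ell, if_false]; ring
  · intro b _ hb
    rw [Matrix.diagonal_apply_ne _ (Ne.symm hb)]; ring
  · simp


lemma pd_Gam_G (hN : ContDiff ℝ ∞ N) (hp : ∀ x, 0 < N x) (m k i j : Fin n) (x : E n) :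
    pd m (Gam (G o N) k i j) x =
      ell o k * ell o j * (pd m (pd i N) x * (N x)⁻¹ - pd i N x * pd m N x * (N x)⁻¹ ^ 2)
      + ell o k * ell o i * (pd m (pd j N) x * (N x)⁻¹ - pd j N x * pd m N x * (N x)⁻¹ ^ 2)
      - ell o i * ell o j * ell o k * (pd m (pd k N) x * (N x)⁻¹ - pd k N x * pd m N x * (N x)⁻¹ ^ 2)
      - ell o i * ell o j * (1 - ell o k) * (pd m N x * pd k N x + N x * pd m (pd k N) x) := by
  have hd : DifferentiableAt ℝ N x := (hN.differentiable (by simp)) x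
  have hdi : ∀ a, DifferentiableAt ℝ (pd a N) x := fun a =>
    ((contDiff_pd a hN).differentiable (by simp)) x
  have hinv : DifferentiableAt ℝ (fun y => (N y)⁻¹) x := hd.inv (hp x).ne'
  have hq : ∀ a, DifferentiableAt ℝ (fun y => pd a N y * (N y)⁻¹) x := fun a => (hdi a).mul hinv
  have hNq : ∀ a, DifferentiableAt ℝ (fun y => N y * pd a N y) x := fun a => hd.mul (hdi a)
  have e : Gam (G o N) k i j = fun y => ell o k * ell o j * (pd i N y * (N y)⁻¹)
      + ell o k * ell o i * (pd j N y * (N y)⁻¹)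
      - ell o i * ell o j * ell o k * (pd k N y * (N y)⁻¹)
      - ell o i * ell o j * (1 - ell o k) * (N y * pd k N y) := by
    funext y; rw [Gam_G o hN hp]; ring
  have hpq : ∀ a, pd m (fun y => pd a N y * (N y)⁻¹) x =
      pd m (pd a N) x * (N x)⁻¹ - pd a N x * pd m N x * (N x)⁻¹ ^ 2 := fun a => by
    rw [pd_mul _ (hdi a) hinv, pd_inv _ hd (hp x).ne']; field_simp; ring
  have c1 : ∀ (c : ℝ) a, DifferentiableAt ℝ (fun y => c * (pd a N y * (N y)⁻¹)) x :=
    fun c a => (hq a).const_mul c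
  have c2 : ∀ (c : ℝ) a, DifferentiableAt ℝ (fun y => c * (N y * pd a N y)) x :=
    fun c a => (hNq a).const_mul c
  rw [e, pd_sub _ (((c1 _ _).fun_add (c1 _ _)).fun_sub (c1 _ _)) (c2 _ _),
    pd_sub _ ((c1 _ _).fun_add (c1 _ _)) (c1 _ _), pd_add _ (c1 _ _) (c1 _ _),
    pd_const_mul _ _ (hq _), pd_const_mul _ _ (hq _), pd_const_mul _ _ (hq _),
    pd_const_mul _ _ (hNq _), hpq, hpq, hpq, pd_mul _ hd (hdi k)]

lemma ell_sq (i : Fin n) : ell o i * ell o i = ell o i := by
  unfold ell; split_ifs <;> simp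

lemma ell_self : ell o o = 1 := by simp [ell]

lemma RmUp_G (hN : ContDiff ℝ ∞ N) (hp : ∀ x, 0 < N x) (l k i j : Fin n) (x : E n) :
    RmUp (G o N) l k i j x =
      ell o l * ((N x)⁻¹ * (pd i (pd k N) x * ell o j - pd j (pd k N) x * ell o i
        - pd o (pd i N) x * ell o j * ell o k + pd o (pd j N) x * ell o i * ell o k))
      + (1 - ell o l) * (N x * (ell o i * ell o k * pd j (pd l N) x
        - ell o j * ell o k * pd i (pd l N) x)) := by
  unfold RmUp
  rw [pd_Gam_G o hN hp, pd_Gam_G o hN hp, Finset.sum_eq_single o]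
  · simp only [Gam_G o hN hp]
    have hc1 := pd_comm o i hN x
    have hc2 := pd_comm o j hN x
    have hc3 := pd_comm i j hN x
    have h0 := (hp x).ne'
    rw [hc1, hc2]
    have key : ∀ a : Fin n, a = o ∨ ell o a = 0 := fun a => by
      by_cases h : a = o
      · exact Or.inl h
      · exact Or.inr (by simp [ell, h])
    have es := ell_self o
    rcases key l with h1 | h1 <;> rcases key k with h2 | h2 <;> rcases key i with h3 | h3 <;>
      rcases key j with h4 | h4 <;> simp only [h1, h2, h3, h4, es] <;> field_simp <;> ring_nf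
    · rw [hc2]; ring
    · rw [hc1]; ring
    · rw [hc3]; ring
  · intro b _ hb
    simp only [Gam_G o hN hp]
    have : ell o b = 0 := by simp [ell, hb]
    rw [this]; ring
  · simp


/-- The curvature tensor of the lapse metric is `-N` times the Kulkarni-Nomizu type product of the
Euclidean Hessian of `N` with `dx_o ⊗ dx_o`. -/
lemma Rm_G (hN : ContDiff ℝ ∞ N) (hp : ∀ x, 0 < N x) (i j k l : Fin n) (x : E n) :
    Rm (G o N) i j k l x = - N x *
      (ell o i * ell o k * pd j (pd l N) x + ell o j * ell o l * pd i (pd k N) x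
        - ell o i * ell o l * pd j (pd k N) x - ell o j * ell o k * pd i (pd l N) x) := by
  unfold Rm
  rw [Finset.sum_eq_single k]
  · rw [RmUp_G o hN hp, G_apply]
    have hc1 := pd_comm o i hN x
    have hc2 := pd_comm o j hN x
    have h0 := (hp x).ne'
    have key : ∀ a : Fin n, a = o ∨ ell o a = 0 := fun a => by
      by_cases h : a = o
      · exact Or.inl h
      · exact Or.inr (by simp [ell, h])
    have es := ell_self o
    rcases key k with h1 | h1
    · subst h1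
      simp only [es, if_true]
      rw [hc1, hc2]
      field_simp
      ring
    · simp only [h1, if_true]
      ring
  · intro b _ hb
    have : G o N x k b = 0 := by
      unfold G
      rw [Matrix.diagonal_apply_ne _ (Ne.symm hb)]
    rw [this, zero_mul]
  · simp


/-- diagonal entries of the inverse metric -/
noncomputable def dg (N : E n → ℝ) (x : E n) (i : Fin n) : ℝ := if i = o then (N x ^ 2)⁻¹ else 1

/-- metric trace of the Euclidean Hessian -/
noncomputable def T (N : E n → ℝ) (x : E n) : ℝ := ∑ i, dg o N x i * pd i (pd i N) x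

lemma ginv_G_apply (hp : ∀ x, 0 < N x) (x : E n) (i j : Fin n) :
    ginv (G o N) x i j = if i = j then dg o N x i else 0 := by
  rw [ginv_G o hp, Matrix.diagonal_apply]; rfl

lemma sum_ell (f : Fin n → ℝ) : ∑ i, ell o i * f i = f o := by
  simp [ell]

lemma Ric_G (hN : ContDiff ℝ ∞ N) (hp : ∀ x, 0 < N x) (j l : Fin n) (x : E n) :
    Ric (G o N) j l x = - N x * (dg o N x o * pd j (pd l N) x + ell o j * ell o l * T o N x
      - dg o N x o * ell o l * pd j (pd o N) x - dg o N x o * ell o j * pd o (pd l N) x) := by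
  unfold Ric
  simp only [ginv_G_apply o hp, ite_mul, zero_mul, Finset.sum_ite_eq, Finset.mem_univ, if_true,
    Rm_G o hN hp]
  have e : ∀ i, dg o N x i * (-N x * (ell o i * ell o i * pd j (pd l N) x
      + ell o j * ell o l * pd i (pd i N) x
      - ell o i * ell o l * pd j (pd i N) x - ell o j * ell o i * pd i (pd l N) x)) =
      ell o i * (-N x * dg o N x i * (pd j (pd l N) x - ell o l * pd j (pd i N) x
        - ell o j * pd i (pd l N) x))
      + (-N x * (ell o j * ell o l)) * (dg o N x i * pd i (pd i N) x) := by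
    intro i
    linear_combination (-N x * dg o N x i * pd j (pd l N) x) * ell_sq o i
  rw [Finset.sum_congr rfl (fun i _ => e i), Finset.sum_add_distrib, sum_ell, ← Finset.mul_sum]
  unfold T
  ring

lemma Scal_G (hN : ContDiff ℝ ∞ N) (hp : ∀ x, 0 < N x) (x : E n) :
    Scal (G o N) x = - 2 * N x * dg o N x o * (T o N x - dg o N x o * pd o (pd o N) x) := by
  unfold Scal
  simp only [ginv_G_apply o hp, ite_mul, zero_mul, Finset.sum_ite_eq, Finset.mem_univ, if_true,
    Ric_G o hN hp]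
  have e : ∀ j, dg o N x j * (-N x * (dg o N x o * pd j (pd j N) x + ell o j * ell o j * T o N x
      - dg o N x o * ell o j * pd j (pd o N) x - dg o N x o * ell o j * pd o (pd j N) x)) =
      ell o j * (-N x * dg o N x j * (T o N x - dg o N x o * pd j (pd o N) x
        - dg o N x o * pd o (pd j N) x))
      + (-N x * dg o N x o) * (dg o N x j * pd j (pd j N) x) := by
    intro j
    linear_combination (-N x * dg o N x j * T o N x) * ell_sq o j
  rw [Finset.sum_congr rfl (fun i _ => e i), Finset.sum_add_distrib, sum_ell, ← Finset.mul_sum]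
  unfold T
  ring

lemma RmC_G (hp : ∀ x, 0 < N x) (i j k l : Fin n) (x : E n) :
    RmC (G o N) i j k l x = dg o N x i * dg o N x j * dg o N x k * dg o N x l *
      Rm (G o N) i j k l x := by
  unfold RmC
  simp only [ginv_G_apply o hp, mul_ite, ite_mul, zero_mul, mul_zero, Finset.sum_ite_eq,
    Finset.mem_univ, if_true]

lemma RicC_G (hp : ∀ x, 0 < N x) (j l : Fin n) (x : E n) :
    RicC (G o N) j l x = dg o N x j * dg o N x l * Ric (G o N) j l x := by
  unfold RicC
  simp only [ginv_G_apply o hp, mul_ite, ite_mul, zero_mul, mul_zero, Finset.sum_ite_eq,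
    Finset.mem_univ, if_true]

lemma Rm_zero (hN : ContDiff ℝ ∞ N) (hp : ∀ x, 0 < N x) (i j k l : Fin n) (x : E n)
    (h : ¬ ((i = o ∨ j = o) ∧ (k = o ∨ l = o))) : Rm (G o N) i j k l x = 0 := by
  rw [Rm_G o hN hp]
  by_cases h1 : i = o ∨ j = o
  · have h2 : ¬ (k = o ∨ l = o) := fun h2 => h ⟨h1, h2⟩
    push Not at h2
    simp [ell, h2.1, h2.2]
  · push Not at h1
    simp [ell, h1.1, h1.2]

lemma P_ojol (hN : ContDiff ℝ ∞ N) (hp : ∀ x, 0 < N x) (j l : Fin n) (x : E n) :
    P (G o N) o j o l x = 0 := by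
  unfold P
  simp only [RmC_G o hp, RicC_G o hp, Scal_G o hN hp, Ric_G o hN hp, Rm_G o hN hp,
    ginv_G_apply o hp]
  have hdo : dg o N x o = (N x ^ 2)⁻¹ := by simp [dg]
  have key : ∀ a : Fin n, a ≠ o → (ell o a = 0 ∧ dg o N x a = 1) := fun a h => by
    simp [ell, dg, h]
  have h0 := (hp x).ne'
  have es := ell_self o
  by_cases h3 : j = o
  · simp only [h3, es, if_true]; ring
  · obtain ⟨a1, a2⟩ := key j h3
    have h3' : o ≠ j := Ne.symm h3
    by_cases h4 : l = o
    · simp only [h4, es, h3, h3', if_true, if_false, a1, a2]; ring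
    · obtain ⟨b1, b2⟩ := key l h4
      have h4' : o ≠ l := Ne.symm h4
      by_cases h5 : j = l
      · subst h5
        simp only [es, h3, h3', if_true, if_false, a1, a2]
        rw [hdo]; field_simp; ring
      · have h5' : l ≠ j := Ne.symm h5
        simp only [es, h3, h4, h5, h3', h4', if_true, if_false, a1, a2, b1, b2]
        ring

lemma P_swap1 (hN : ContDiff ℝ ∞ N) (hp : ∀ x, 0 < N x) (i j k l : Fin n) (x : E n) :
    P (G o N) j i k l x = - P (G o N) i j k l x := by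
  unfold P
  simp only [RmC_G o hp, RicC_G o hp, Rm_G o hN hp]
  ring

lemma P_swap2 (hN : ContDiff ℝ ∞ N) (hp : ∀ x, 0 < N x) (i j k l : Fin n) (x : E n) :
    P (G o N) i j l k x = - P (G o N) i j k l x := by
  unfold P
  simp only [RmC_G o hp, RicC_G o hp, Rm_G o hN hp]
  ring

lemma P_zero (hN : ContDiff ℝ ∞ N) (hp : ∀ x, 0 < N x) (i j k l : Fin n) (x : E n)
    (h1 : i = o ∨ j = o) (h2 : k = o ∨ l = o) : P (G o N) i j k l x = 0 := by
  rcases h1 with h1 | h1 <;> rcases h2 with h2 | h2 <;> rw [h1, h2]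
  · exact P_ojol o hN hp j l x
  · rw [P_swap2 o hN hp, P_ojol o hN hp, neg_zero]
  · rw [P_swap1 o hN hp, P_ojol o hN hp, neg_zero]
  · rw [P_swap1 o hN hp, P_swap2 o hN hp, P_ojol o hN hp, neg_zero, neg_zero]

lemma L2_G (hN : ContDiff ℝ ∞ N) (hp : ∀ x, 0 < N x) (x : E n) : L2 (G o N) x = 0 := by
  unfold L2
  refine Finset.sum_eq_zero fun i _ => Finset.sum_eq_zero fun j _ => Finset.sum_eq_zero fun k _ =>
    Finset.sum_eq_zero fun l _ => ?_
  by_cases h : (i = o ∨ j = o) ∧ (k = o ∨ l = o)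
  · rw [P_zero o hN hp i j k l x h.1 h.2, zero_mul]
  · rw [Rm_zero o hN hp i j k l x h, mul_zero]

/-- the integrand of the Gauss-Bonnet-Chern mass vanishes identically -/
lemma massIntegrand_G (hN : ContDiff ℝ ∞ N) (hp : ∀ x, 0 < N x) (i j k l : Fin n) (x : E n) :
    P (G o N) i j k l x * pd l (fun y => G o N y j k) x = 0 := by
  rw [pd_G o hN]
  by_cases h : j = o ∧ k = o
  · rw [P_zero o hN hp i j k l x (Or.inr h.1) (Or.inl h.2), zero_mul]
  · have : ell o j * ell o k = 0 := by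
      unfold ell
      by_cases hj : j = o
      · have hk : k ≠ o := fun hk => h ⟨hj, hk⟩
        simp [hk]
      · simp [hj]
    rw [this]; ring

end lapse


/-! ### the lapse function -/

section lapseFunction
variable {n : ℕ}

/-- `(1 + |x|²)^{-m}` -/
noncomputable def U (m : ℕ) (x : E n) : ℝ := ((1 + ‖x‖ ^ 2) ^ m)⁻¹

lemma w_pos (x : E n) : 0 < 1 + ‖x‖ ^ 2 := by positivity

lemma U_pos (m : ℕ) (x : E n) : 0 < U m x := by unfold U; positivity

lemma contDiff_U (m : ℕ) : ContDiff ℝ ∞ (U m : E n → ℝ) := by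
  unfold U
  exact ((contDiff_const.add (contDiff_norm_sq ℝ)).pow m).inv fun x => (pow_pos (w_pos x) m).ne'

lemma pd_coord (i j : Fin n) (x : E n) : pd j (fun y : E n => y i) x = if i = j then 1 else 0 := by
  have : HasFDerivAt (fun y : E n => y i) (EuclideanSpace.proj i : E n →L[ℝ] ℝ) x :=
    (EuclideanSpace.proj i : E n →L[ℝ] ℝ).hasFDerivAt
  unfold pd
  rw [this.fderiv]
  simp

lemma pd_U (m : ℕ) (i : Fin n) (x : E n) :
    pd i (U m) x = -(2 * m) * (x i * U (m + 1) x) := by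
  have h1 : HasFDerivAt (fun y : E n => 1 + ‖y‖ ^ 2) (2 • innerSL ℝ x) x :=
    ((hasStrictFDerivAt_norm_sq x).hasFDerivAt).const_add 1
  have h0 := (w_pos x).ne'
  have h2 : HasDerivAt (fun t : ℝ => (t ^ m)⁻¹) (-(m * (1 + ‖x‖ ^ 2) ^ (m - 1)) / ((1 + ‖x‖ ^ 2) ^ m) ^ 2)
      (1 + ‖x‖ ^ 2) := (hasDerivAt_pow m _).fun_inv (pow_ne_zero _ h0)
  have h3 := h2.comp_hasFDerivAt x h1
  have h4 : HasFDerivAt (U m) ((-(m * (1 + ‖x‖ ^ 2) ^ (m - 1)) / ((1 + ‖x‖ ^ 2) ^ m) ^ 2) •
      (2 • innerSL ℝ x)) x := h3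
  unfold pd
  rw [h4.fderiv]
  simp only [smul_apply, innerSL_apply_apply, nsmul_eq_mul, smul_eq_mul,
    EuclideanSpace.inner_single_right]
  unfold U
  rcases m with _ | m
  · simp
  · simp only [Nat.add_sub_cancel]
    push_cast
    field_simp
    simp
    ring


lemma differentiable_U (m : ℕ) : Differentiable ℝ (U m : E n → ℝ) :=
  (contDiff_U m).differentiable (by simp)

lemma pd_pd_U (m : ℕ) (i j : Fin n) (x : E n) :
    pd j (pd i (U m)) x = -(2 * m) * ((if i = j then 1 else 0) * U (m + 1) x)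
      + 4 * m * (m + 1) * (x i * x j * U (m + 2) x) := by
  have e : pd i (U m) = fun y : E n => -(2 * m) * (y i * U (m + 1) y) := by
    funext y; rw [pd_U]
  have hc : DifferentiableAt ℝ (fun y : E n => y i) x :=
    (EuclideanSpace.proj i : E n →L[ℝ] ℝ).differentiableAt
  rw [e, pd_const_mul _ _ (hc.fun_mul (differentiable_U _ _)), pd_mul _ hc (differentiable_U _ _),
    pd_coord, pd_U]
  push_cast
  ring

/-- the lapse function `N = 1 + (1 + |x|²)^{-m}` -/
noncomputable def Nf (m : ℕ) (x : E n) : ℝ := 1 + U m x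

lemma contDiff_Nf (m : ℕ) : ContDiff ℝ ∞ (Nf m : E n → ℝ) := contDiff_const.add (contDiff_U m)

lemma Nf_gt (m : ℕ) (x : E n) : 1 < Nf m x := by
  have := U_pos m x
  unfold Nf; linarith

lemma Nf_pos (m : ℕ) (x : E n) : 0 < Nf m x := zero_lt_one.trans (Nf_gt m x)

lemma pd_Nf (m : ℕ) (i : Fin n) : pd i (Nf m : E n → ℝ) = pd i (U m) := by
  funext x
  have : (Nf m : E n → ℝ) = fun y => 1 + U m y := rfl
  rw [this, pd_add _ (by fun_prop) (differentiable_U _ _), pd_const, zero_add]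

lemma U_le_one (m : ℕ) (x : E n) : U m x ≤ 1 := by
  unfold U
  apply inv_le_one_of_one_le₀
  apply one_le_pow₀
  nlinarith [sq_nonneg ‖x‖]

lemma U_succ (m : ℕ) (x : E n) : U (m + 1) x * (1 + ‖x‖ ^ 2) = U m x := by
  have := (w_pos x).ne'
  unfold U
  field_simp
  ring

variable (o : Fin n)

/-- the sum of the second derivatives in the directions other than `o` is negative -/
lemma laplacian_neg (m : ℕ) (hm : 1 ≤ m) (hmn : 2 * m + 2 ≤ n - 1) (x : E n) :
    T o (Nf m) x - dg o (Nf m) x o * pd o (pd o (Nf m)) x < 0 := by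
  have hsum : T o (Nf m) x - dg o (Nf m) x o * pd o (pd o (Nf m)) x
      = ∑ i ∈ Finset.univ.erase o, pd i (pd i (U m)) x := by
    unfold T
    rw [← Finset.add_sum_erase _ _ (Finset.mem_univ o), add_sub_cancel_left]
    refine Finset.sum_congr rfl fun i hi => ?_
    have : i ≠ o := (Finset.mem_erase.1 hi).1
    simp [dg, this, pd_Nf]
  rw [hsum]
  have hcard : ((Finset.univ.erase o : Finset (Fin n)).card : ℝ) = n - 1 := by
    rw [Finset.card_erase_of_mem (Finset.mem_univ o), Finset.card_univ, Fintype.card_fin]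
    have : 1 ≤ n := by
      have := o.pos; omega
    push_cast [Nat.cast_sub this]; ring
  have hle : ∑ i ∈ Finset.univ.erase o, x i * x i ≤ ‖x‖ ^ 2 := by
    rw [EuclideanSpace.norm_sq_eq]
    calc ∑ i ∈ Finset.univ.erase o, x i * x i ≤ ∑ i, x i * x i :=
          Finset.sum_le_sum_of_subset_of_nonneg (Finset.erase_subset _ _)
            (fun i _ _ => mul_self_nonneg _)
      _ = ∑ i, ‖x i‖ ^ 2 := Finset.sum_congr rfl fun i _ => by rw [Real.norm_eq_abs, sq_abs]; ring
  have hexp : ∑ i ∈ Finset.univ.erase o, pd i (pd i (U m)) x =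
      -(2 * m) * ((n - 1) * U (m + 1) x)
        + 4 * m * (m + 1) * ((∑ i ∈ Finset.univ.erase o, x i * x i) * U (m + 2) x) := by
    simp only [pd_pd_U, if_true]
    rw [Finset.sum_add_distrib, Finset.sum_const, nsmul_eq_mul, hcard, ← Finset.mul_sum,
      ← Finset.sum_mul]
    ring
  rw [hexp]
  have hU2 := U_pos (m + 2) x
  have hs : U (m + 1) x = U (m + 2) x * (1 + ‖x‖ ^ 2) := (U_succ (m + 1) x).symm
  rw [hs]
  have hm' : (1 : ℝ) ≤ m := by exact_mod_cast hm
  have hn' : (2 * m + 2 : ℝ) ≤ n - 1 := by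
    have h1 : 1 ≤ n := by have := o.pos; omega
    have : ((2 * m + 2 : ℕ) : ℝ) ≤ ((n - 1 : ℕ) : ℝ) := by exact_mod_cast hmn
    rw [Nat.cast_sub h1] at this
    push_cast at this
    linarith
  set S := ∑ i ∈ Finset.univ.erase o, x i * x i
  have hS0 : 0 ≤ ‖x‖ ^ 2 := by positivity
  have key : 2 * (m + 1) * S - (n - 1) * (1 + ‖x‖ ^ 2) < 0 := by
    have h1 : 2 * (m + 1 : ℝ) * S ≤ 2 * (m + 1) * ‖x‖ ^ 2 := by gcongr
    have h2 : 2 * (m + 1 : ℝ) * ‖x‖ ^ 2 ≤ (n - 1) * ‖x‖ ^ 2 := by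
      have : 2 * (m + 1 : ℝ) ≤ n - 1 := by linarith
      gcongr
    have h3 : (0 : ℝ) < n - 1 := by linarith
    nlinarith
  have : -(2 * (m:ℝ)) * ((n - 1) * (U (m + 2) x * (1 + ‖x‖ ^ 2))) + 4 * m * (m + 1) * (S * U (m + 2) x)
      = 2 * m * U (m + 2) x * (2 * (m + 1) * S - (n - 1) * (1 + ‖x‖ ^ 2)) := by ring
  rw [this]
  have hpos : 0 < 2 * (m:ℝ) * U (m + 2) x := by positivity
  exact mul_neg_of_pos_of_neg hpos key

lemma Scal_pos (m : ℕ) (hm : 1 ≤ m) (hmn : 2 * m + 2 ≤ n - 1) (x : E n) :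
    0 < Scal (G o (Nf m)) x := by
  rw [Scal_G o (contDiff_Nf m) (Nf_pos m)]
  have h1 := laplacian_neg o m hm hmn x
  have h2 : 0 < 2 * Nf m x * dg o (Nf m) x o := by
    have := Nf_pos m x
    simp only [dg, if_true]
    positivity
  nlinarith

end lapseFunction

section main
variable {n : ℕ} (o : Fin n)

lemma isRiemannian_G (m : ℕ) : IsRiemannian (G o (Nf m)) := by
  refine ⟨fun i j => ?_, fun x => ?_⟩
  · simp only [G_apply]
    exact contDiff_const.add (contDiff_const.mul (((contDiff_Nf m).pow 2).sub contDiff_const))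
  · unfold G
    apply Matrix.PosDef.diagonal
    intro i
    have := Nf_pos m x
    split_ifs <;> positivity

lemma hasGBCMass_G (m : ℕ) : HasGBCMass (G o (Nf m)) 0 := by
  have h : ∀ r : ℝ, c2 n * flux (G o (Nf m)) r = 0 := by
    intro r
    unfold flux
    simp only [massIntegrand_G o (contDiff_Nf m) (Nf_pos m), zero_mul, Finset.sum_const_zero,
      integral_zero, mul_zero]
  unfold HasGBCMass
  simp only [h]
  exact tendsto_const_nhds

lemma abs_coord_le (x : E n) (i : Fin n) : |x i| ≤ ‖x‖ := by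
  have := PiLp.norm_apply_le x i
  simpa using this

lemma U_le_inv (m : ℕ) (x : E n) (hx : 1 ≤ ‖x‖) : U m x ≤ (‖x‖ ^ (2 * m))⁻¹ := by
  unfold U
  have h0 : 0 < ‖x‖ := by linarith
  apply inv_anti₀ (by positivity)
  rw [pow_mul]
  gcongr
  linarith

lemma isAsymptoticallyFlat_G (m : ℕ) : IsAsymptoticallyFlat (G o (Nf m)) (2 * m) := by
  refine ⟨24 * m ^ 2 + 24 * m + 3, 1, one_pos, fun x hx i j k l => ?_⟩
  have h0 : 0 < ‖x‖ := by linarith
  have e0 : ‖x‖ ^ (-(2 * m : ℝ)) = (‖x‖ ^ (2 * m))⁻¹ := by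
    rw [Real.rpow_neg h0.le]
    congr 1
    exact_mod_cast Real.rpow_natCast ‖x‖ (2 * m)
  have e1 : ‖x‖ ^ (-(2 * m : ℝ) - 1) = (‖x‖ ^ (2 * m + 1))⁻¹ := by
    rw [show -(2 * m : ℝ) - 1 = -((2 * m + 1 : ℕ) : ℝ) by push_cast; ring,
      Real.rpow_neg h0.le, Real.rpow_natCast]
  have e2 : ‖x‖ ^ (-(2 * m : ℝ) - 2) = (‖x‖ ^ (2 * m + 2))⁻¹ := by
    rw [show -(2 * m : ℝ) - 2 = -((2 * m + 2 : ℕ) : ℝ) by push_cast; ring,
      Real.rpow_neg h0.le, Real.rpow_natCast]
  rw [e0, e1, e2]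
  set R := ‖x‖ with hR
  have hU0 := U_pos m x
  have hU1 := U_pos (m + 1) x
  have hU2 := U_pos (m + 2) x
  have bU0 : U m x ≤ (R ^ (2 * m))⁻¹ := U_le_inv m x hx
  have bU1 : U (m + 1) x ≤ (R ^ (2 * m + 2))⁻¹ := U_le_inv (m + 1) x hx
  have bU2 : U (m + 2) x ≤ (R ^ (2 * m + 4))⁻¹ := U_le_inv (m + 2) x hx
  have hUle : U m x ≤ 1 := U_le_one m x
  have hm0 : (0 : ℝ) ≤ m := Nat.cast_nonneg m
  -- first derivatives of the lapse function
  have d1 : ∀ a : Fin n, |pd a (Nf m) x| ≤ 2 * m * (R ^ (2 * m + 1))⁻¹ := fun a => by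
    rw [pd_Nf, pd_U, abs_mul, abs_neg, abs_mul, abs_mul, abs_two, abs_of_nonneg hm0,
      abs_of_pos hU1]
    have hxa : |x a| ≤ R := abs_coord_le x a
    have : |x a| * U (m + 1) x ≤ (R ^ (2 * m + 1))⁻¹ := by
      calc |x a| * U (m + 1) x ≤ R * (R ^ (2 * m + 2))⁻¹ := by gcongr
        _ = (R ^ (2 * m + 1))⁻¹ := by field_simp; ring
    gcongr
  have hcb : (R ^ (2 * m + 2))⁻¹ ≤ (R ^ (2 * m + 1))⁻¹ := by
    apply inv_anti₀ (by positivity)
    exact pow_le_pow_right₀ hx (by omega)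
  have hb1 : (R ^ (2 * m + 1))⁻¹ ≤ 1 := inv_le_one_of_one_le₀ (one_le_pow₀ hx)
  have hc0 : 0 < (R ^ (2 * m + 2))⁻¹ := by positivity
  have hb0 : 0 < (R ^ (2 * m + 1))⁻¹ := by positivity
  have d2 : ∀ a b : Fin n, |pd a (pd b (Nf m)) x| ≤ (2 * m + 4 * m * (m + 1)) * (R ^ (2 * m + 2))⁻¹ :=
    fun a b => by
    rw [pd_Nf, pd_pd_U]
    have hxa : |x a| ≤ R := abs_coord_le x a
    have hxb : |x b| ≤ R := abs_coord_le x b
    have t1 : |-(2 * (m:ℝ)) * ((if b = a then 1 else 0) * U (m + 1) x)| ≤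
        2 * m * (R ^ (2 * m + 2))⁻¹ := by
      rw [abs_mul, abs_neg, abs_mul, abs_two, abs_of_nonneg hm0]
      have : |(if b = a then (1:ℝ) else 0) * U (m + 1) x| ≤ (R ^ (2 * m + 2))⁻¹ := by
        split_ifs
        · rw [one_mul, abs_of_pos hU1]; exact bU1
        · rw [zero_mul, abs_zero]; exact hc0.le
      gcongr
    have t2 : |4 * (m:ℝ) * (m + 1) * (x b * x a * U (m + 2) x)| ≤
        4 * m * (m + 1) * (R ^ (2 * m + 2))⁻¹ := by
      rw [abs_mul, abs_of_nonneg (by positivity : (0:ℝ) ≤ 4 * m * (m + 1)), abs_mul, abs_mul,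
        abs_of_pos hU2]
      have : |x b| * |x a| * U (m + 2) x ≤ (R ^ (2 * m + 2))⁻¹ := by
        calc |x b| * |x a| * U (m + 2) x ≤ R * R * (R ^ (2 * m + 4))⁻¹ := by gcongr
          _ = (R ^ (2 * m + 2))⁻¹ := by field_simp; ring
      gcongr
    calc _ ≤ _ + _ := abs_add_le _ _
      _ ≤ 2 * m * (R ^ (2 * m + 2))⁻¹ + 4 * m * (m + 1) * (R ^ (2 * m + 2))⁻¹ := add_le_add t1 t2
      _ = _ := by ring
  have hell : ∀ a b : Fin n, |ell o a * ell o b| ≤ 1 := fun a b => by
    unfold ell; split_ifs <;> simp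
  have hN2 : Nf m x ≤ 2 := by unfold Nf; linarith
  have hN0 := Nf_pos m x
  have hda : Differentiable ℝ (Nf m : E n → ℝ) := (contDiff_Nf m).differentiable (by simp)
  have hdb : ∀ a, Differentiable ℝ (pd a (Nf m : E n → ℝ)) := fun a =>
    (contDiff_pd a (contDiff_Nf m)).differentiable (by simp)
  refine ⟨?_, ?_, ?_⟩
  · have e : G o (Nf m) x i j - (1 : Matrix (Fin n) (Fin n) ℝ) i j =
        (ell o i * ell o j) * (U m x * (2 + U m x)) := by
      rw [G_apply, Matrix.one_apply]; unfold Nf; ring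
    rw [e, abs_mul, abs_of_pos (by positivity : 0 < U m x * (2 + U m x))]
    calc |ell o i * ell o j| * (U m x * (2 + U m x)) ≤ 1 * ((R ^ (2 * m))⁻¹ * (2 + 1)) := by
          gcongr; exact hell i j
      _ = 3 * (R ^ (2 * m))⁻¹ := by ring
      _ ≤ _ := by
          gcongr
          nlinarith
  · rw [pd_G o (contDiff_Nf m), abs_mul (ell o i * ell o j), abs_mul (2 * Nf m x),
      abs_of_pos (by positivity : 0 < 2 * Nf m x)]
    calc |ell o i * ell o j| * (2 * Nf m x * |pd k (Nf m) x|)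
        ≤ 1 * (2 * 2 * (2 * m * (R ^ (2 * m + 1))⁻¹)) := by
          gcongr
          · exact hell i j
          · exact d1 k
      _ = (8 * m) * (R ^ (2 * m + 1))⁻¹ := by ring
      _ ≤ _ := by
          gcongr
          nlinarith
  · have e : pd l (fun y => G o (Nf m) y i j) =
        fun y => (ell o i * ell o j) * (2 * (Nf m y * pd l (Nf m) y)) := by
      funext y; rw [pd_G o (contDiff_Nf m)]; ring
    rw [e, pd_const_mul _ _ (((hda x).fun_mul (hdb l x)).const_mul 2),
      pd_const_mul _ _ ((hda x).fun_mul (hdb l x)), pd_mul _ (hda x) (hdb l x), abs_mul]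
    have t : |2 * (pd k (Nf m) x * pd l (Nf m) x + Nf m x * pd k (pd l (Nf m)) x)| ≤
        (24 * m ^ 2 + 24 * m) * (R ^ (2 * m + 2))⁻¹ := by
      rw [abs_mul, abs_two]
      have s1 : |pd k (Nf m) x * pd l (Nf m) x| ≤ 4 * m ^ 2 * (R ^ (2 * m + 2))⁻¹ := by
        rw [abs_mul]
        have hR1 : (R ^ (2 * m + 1))⁻¹ * (R ^ (2 * m + 1))⁻¹ ≤ (R ^ (2 * m + 2))⁻¹ := by
          rw [← mul_inv, ← pow_add]
          apply inv_anti₀ (by positivity)
          exact pow_le_pow_right₀ hx (by omega)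
        calc |pd k (Nf m) x| * |pd l (Nf m) x|
            ≤ (2 * m * (R ^ (2 * m + 1))⁻¹) * (2 * m * (R ^ (2 * m + 1))⁻¹) := by
              gcongr
              · exact d1 k
              · exact d1 l
          _ = 4 * m ^ 2 * ((R ^ (2 * m + 1))⁻¹ * (R ^ (2 * m + 1))⁻¹) := by ring
          _ ≤ _ := by gcongr
      have s2 : |Nf m x * pd k (pd l (Nf m)) x| ≤
          2 * ((2 * m + 4 * m * (m + 1)) * (R ^ (2 * m + 2))⁻¹) := by
        rw [abs_mul, abs_of_pos hN0]
        gcongr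
        exact d2 k l
      calc 2 * |pd k (Nf m) x * pd l (Nf m) x + Nf m x * pd k (pd l (Nf m)) x|
          ≤ 2 * (4 * m ^ 2 * (R ^ (2 * m + 2))⁻¹
            + 2 * ((2 * m + 4 * m * (m + 1)) * (R ^ (2 * m + 2))⁻¹)) := by
            gcongr
            exact (abs_add_le _ _).trans (add_le_add s1 s2)
        _ = _ := by ring
    calc |ell o i * ell o j| * |2 * (pd k (Nf m) x * pd l (Nf m) x + Nf m x * pd k (pd l (Nf m)) x)|
        ≤ 1 * ((24 * m ^ 2 + 24 * m) * (R ^ (2 * m + 2))⁻¹) := by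
          gcongr
          exact hell i j
      _ = (24 * m ^ 2 + 24 * m) * (R ^ (2 * m + 2))⁻¹ := by ring
      _ ≤ _ := mul_le_mul_of_nonneg_right (by linarith) hc0.le


/-! ### completeness -/

lemma quad_G (m : ℕ) (x v : E n) :
    ∑ i, ∑ j, G o (Nf m) x i j * v i * v j = ‖v‖ ^ 2 + (Nf m x ^ 2 - 1) * v o ^ 2 := by
  have e : ∀ i, ∑ j, G o (Nf m) x i j * v i * v j =
      ‖v i‖ ^ 2 + ell o i * ((Nf m x ^ 2 - 1) * v i * v o) := by
    intro i
    simp only [G_apply]
    have : ∀ j, ((if i = j then (1:ℝ) else 0) + ell o i * ell o j * (Nf m x ^ 2 - 1)) * v i * v j =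
        (if i = j then v i * v j else 0) + ell o j * (ell o i * (Nf m x ^ 2 - 1) * v i * v j) := by
      intro j; split_ifs <;> ring
    rw [Finset.sum_congr rfl fun j _ => this j, Finset.sum_add_distrib, sum_ell,
      Finset.sum_ite_eq, if_pos (Finset.mem_univ _), Real.norm_eq_abs, sq_abs]
    ring
  rw [Finset.sum_congr rfl fun i _ => e i, Finset.sum_add_distrib, sum_ell,
    EuclideanSpace.norm_sq_eq]
  ring

lemma quad_lower (m : ℕ) (x v : E n) : ‖v‖ ^ 2 ≤ ∑ i, ∑ j, G o (Nf m) x i j * v i * v j := by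
  rw [quad_G]
  have := Nf_gt m x
  have h : 0 ≤ Nf m x ^ 2 - 1 := by nlinarith
  have : 0 ≤ (Nf m x ^ 2 - 1) * v o ^ 2 := by positivity
  linarith

lemma quad_upper (m : ℕ) (x v : E n) :
    ∑ i, ∑ j, G o (Nf m) x i j * v i * v j ≤ (2 * ‖v‖) ^ 2 := by
  rw [quad_G]
  have h1 := Nf_gt m x
  have h2 : Nf m x ≤ 2 := by
    have := U_le_one m x
    unfold Nf; linarith
  have h3 : v o ^ 2 ≤ ‖v‖ ^ 2 := by
    rw [← sq_abs]
    exact pow_le_pow_left₀ (abs_nonneg _) (abs_coord_le v o) 2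
  have h4 : Nf m x ^ 2 - 1 ≤ 3 := by nlinarith
  have h5 : 0 ≤ Nf m x ^ 2 - 1 := by nlinarith
  nlinarith [sq_nonneg (v o), sq_nonneg ‖v‖]

lemma continuous_speed (m : ℕ) {γ : ℝ → E n} (hγ : ContDiff ℝ 1 γ) :
    Continuous (fun t => √(∑ i, ∑ j, G o (Nf m) (γ t) i j * deriv γ t i * deriv γ t j)) := by
  have hd : Continuous (deriv γ) := hγ.continuous_deriv le_rfl
  have hg : ∀ i j, Continuous (fun x => G o (Nf m) x i j) := fun i j =>
    ((isRiemannian_G o m).1 i j).continuous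
  have hc : ∀ i, Continuous (fun t => deriv γ t i) := fun i =>
    (EuclideanSpace.proj i : E n →L[ℝ] ℝ).continuous.comp hd
  refine Real.continuous_sqrt.comp ?_
  refine continuous_finsetSum _ fun i _ => continuous_finsetSum _ fun j _ => ?_
  exact (((hg i j).comp hγ.continuous).mul (hc i)).mul (hc j)

lemma norm_sub_le_length (m : ℕ) {γ : ℝ → E n} (hγ : ContDiff ℝ 1 γ) :
    ‖γ 1 - γ 0‖ ≤ length (G o (Nf m)) γ := by
  have hd : Continuous (deriv γ) := hγ.continuous_deriv le_rfl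
  have h1 : ∫ t in (0:ℝ)..1, deriv γ t = γ 1 - γ 0 :=
    intervalIntegral.integral_deriv_eq_sub
      (fun t _ => (hγ.differentiable (by simp)) t) (hd.intervalIntegrable _ _)
  rw [← h1]
  calc ‖∫ t in (0:ℝ)..1, deriv γ t‖ ≤ ∫ t in (0:ℝ)..1, ‖deriv γ t‖ :=
        intervalIntegral.norm_integral_le_integral_norm zero_le_one
    _ ≤ length (G o (Nf m)) γ := by
        unfold length
        apply intervalIntegral.integral_mono_on zero_le_one (hd.norm.intervalIntegrable _ _)
          ((continuous_speed o m hγ).intervalIntegrable _ _)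
        intro t _
        apply Real.le_sqrt_of_sq_le
        exact quad_lower o m _ _

lemma bddBelow_lengths (m : ℕ) (x y : E n) :
    ∀ L ∈ {L : ℝ | ∃ γ : ℝ → E n, ContDiff ℝ 1 γ ∧ γ 0 = x ∧ γ 1 = y ∧
      L = length (G o (Nf m)) γ}, ‖y - x‖ ≤ L := by
  rintro L ⟨γ, hγ, h0, h1, rfl⟩
  have := norm_sub_le_length o m hγ
  rwa [h0, h1] at this

lemma line_mem (m : ℕ) (x y : E n) :
    ∃ L ∈ {L : ℝ | ∃ γ : ℝ → E n, ContDiff ℝ 1 γ ∧ γ 0 = x ∧ γ 1 = y ∧
      L = length (G o (Nf m)) γ}, L ≤ 2 * ‖y - x‖ := by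
  let γ : ℝ → E n := fun t => x + t • (y - x)
  have hγ : ContDiff ℝ 1 γ := contDiff_const.add (contDiff_id.smul contDiff_const)
  refine ⟨length (G o (Nf m)) γ, ⟨γ, hγ, by simp [γ], by simp [γ], rfl⟩, ?_⟩
  have hderiv : ∀ t, deriv γ t = y - x := by
    intro t
    have : HasDerivAt γ ((1:ℝ) • (y - x)) t := ((hasDerivAt_id t).smul_const (y - x)).const_add x
    rw [this.deriv, one_smul]
  unfold length
  calc ∫ t in (0:ℝ)..1, √(∑ i, ∑ j, G o (Nf m) (γ t) i j * deriv γ t i * deriv γ t j)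
      ≤ ∫ t in (0:ℝ)..1, 2 * ‖y - x‖ := by
        apply intervalIntegral.integral_mono_on zero_le_one
          ((continuous_speed o m hγ).intervalIntegrable _ _) (by simp)
        intro t _
        rw [hderiv t]
        exact Real.sqrt_le_iff.2 ⟨by positivity, quad_upper o m _ _⟩
    _ = 2 * ‖y - x‖ := by simp

lemma norm_le_gdist (m : ℕ) (x y : E n) : ‖y - x‖ ≤ gdist (G o (Nf m)) x y := by
  unfold gdist
  obtain ⟨L, hL, _⟩ := line_mem o m x y
  exact le_csInf ⟨L, hL⟩ (bddBelow_lengths o m x y)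

lemma gdist_le (m : ℕ) (x y : E n) : gdist (G o (Nf m)) x y ≤ 2 * ‖y - x‖ := by
  unfold gdist
  obtain ⟨L, hL, hle⟩ := line_mem o m x y
  exact (csInf_le ⟨_, bddBelow_lengths o m x y⟩ hL).trans hle

lemma isComplete_G (m : ℕ) : IsComplete (G o (Nf m)) := by
  intro u hu
  have hc : CauchySeq u := by
    rw [Metric.cauchySeq_iff]
    intro ε hε
    obtain ⟨K, hK⟩ := hu ε hε
    refine ⟨K, fun p hp q hq => ?_⟩
    rw [dist_comm, dist_eq_norm]
    exact (norm_le_gdist o m _ _).trans_lt (hK p hp q hq)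
  obtain ⟨y, hy⟩ := cauchySeq_tendsto_of_complete hc
  refine ⟨y, fun ε hε => ?_⟩
  rw [Metric.tendsto_atTop] at hy
  obtain ⟨K, hK⟩ := hy (ε / 2) (by positivity)
  refine ⟨K, fun p hp => ?_⟩
  have h1 := gdist_le o m (u p) y
  have h2 := hK p hp
  rw [dist_comm, dist_eq_norm] at h2
  linarith

end main

section flat
variable {n : ℕ}

lemma pd_sum (i : Fin n) {ι : Type*} (s : Finset ι) (f : ι → E n → ℝ) (x : E n)
    (hf : ∀ a ∈ s, DifferentiableAt ℝ (f a) x) :
    pd i (fun y => ∑ a ∈ s, f a y) x = ∑ a ∈ s, pd i (f a) x := by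
  unfold pd
  rw [fderiv_fun_sum hf]
  simp

/-- chain rule in coordinates -/
lemma pd_comp (i : Fin n) (f : E n → ℝ) (Φ : E n → E n) (x : E n)
    (hf : DifferentiableAt ℝ f (Φ x)) (hΦ : DifferentiableAt ℝ Φ x) :
    pd i (fun y => f (Φ y)) x = ∑ a, pd a f (Φ x) * pd i (fun y => Φ y a) x := by
  have h1 : fderiv ℝ (fun y => f (Φ y)) x = (fderiv ℝ f (Φ x)).comp (fderiv ℝ Φ x) :=
    fderiv_comp x hf hΦ
  have h2 : ∀ a, pd i (fun y => Φ y a) x = (fderiv ℝ Φ x (EuclideanSpace.single i 1)) a := by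
    intro a
    have h : HasFDerivAt (fun q => Φ q a)
        ((EuclideanSpace.proj a : E n →L[ℝ] ℝ).comp (fderiv ℝ Φ x)) x :=
      (EuclideanSpace.proj a : E n →L[ℝ] ℝ).hasFDerivAt.comp x hΦ.hasFDerivAt
    unfold pd
    rw [h.fderiv]
    simp
  unfold pd at *
  rw [h1]
  simp only [ContinuousLinearMap.comp_apply]
  set v := fderiv ℝ Φ x (EuclideanSpace.single i 1) with hv
  have h3 : v = ∑ a, v a • (EuclideanSpace.single a (1:ℝ) : E n) := by
    ext b
    simp [Pi.single_apply]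
  conv_lhs => rw [h3]
  rw [map_sum]
  refine Finset.sum_congr rfl fun a _ => ?_
  rw [map_smul, smul_eq_mul, h2, mul_comm]


section iso
variable {g : MetricField n} {Φ : E n ≃ E n}

/-- inverse Jacobian entries -/
noncomputable def Ai (Φ : E n ≃ E n) (k a : Fin n) (x : E n) : ℝ :=
  pd a (fun y => Φ.symm y k) (Φ x)

lemma contDiff_coord {F : E n → E n} (hF : ContDiff ℝ ∞ F) (a : Fin n) :
    ContDiff ℝ ∞ (fun y => F y a) := contDiff_euclidean.1 hF a

lemma contDiff_Ai (h1 : ContDiff ℝ ∞ Φ) (h2 : ContDiff ℝ ∞ Φ.symm) (k a : Fin n) :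
    ContDiff ℝ ∞ (Ai Φ k a) := (contDiff_pd a (contDiff_coord h2 k)).comp h1

lemma Ai_mul (h1 : ContDiff ℝ ∞ Φ) (h2 : ContDiff ℝ ∞ Φ.symm) (k i : Fin n) (x : E n) :
    ∑ a, Ai Φ k a x * pd i (fun y => Φ y a) x = if k = i then 1 else 0 := by
  unfold Ai
  rw [← pd_comp i (fun y => Φ.symm y k) Φ x
    (((contDiff_coord h2 k).differentiable (by simp)) _) ((h1.differentiable (by simp)) x)]
  have : (fun y : E n => (Φ.symm (Φ y)) k) = fun y => y k := by
    funext y; rw [Equiv.symm_apply_apply]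
  rw [this, pd_coord]

lemma mul_Ai (h1 : ContDiff ℝ ∞ Φ) (h2 : ContDiff ℝ ∞ Φ.symm) (a b : Fin n) (x : E n) :
    ∑ k, pd k (fun y => Φ y a) x * Ai Φ k b x = if a = b then 1 else 0 := by
  have hx : Φ.symm (Φ x) = x := Equiv.symm_apply_apply _ _
  have h := pd_comp b (fun y => Φ y a) Φ.symm (Φ x)
    (((contDiff_coord h1 a).differentiable (by simp)) _) ((h2.differentiable (by simp)) _)
  rw [hx] at h
  have e : (fun y : E n => (Φ (Φ.symm y)) a) = fun y => y a := by
    funext y; rw [Equiv.apply_symm_apply]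
  rw [e, pd_coord] at h
  rw [h]
  rfl

lemma fderiv_apply_coord {F : E n → E n} {x : E n} (hF : DifferentiableAt ℝ F x) (i a : Fin n) :
    (fderiv ℝ F x (EuclideanSpace.single i 1)) a = pd i (fun y => F y a) x := by
  have h : HasFDerivAt (fun q => F q a)
      ((EuclideanSpace.proj a : E n →L[ℝ] ℝ).comp (fderiv ℝ F x)) x :=
    (EuclideanSpace.proj a : E n →L[ℝ] ℝ).hasFDerivAt.comp x hF.hasFDerivAt
  unfold pd
  rw [h.fderiv]
  simp

lemma g_eq (h1 : ContDiff ℝ ∞ Φ)
    (hg : ∀ x i j, g x i j = inner ℝ (fderiv ℝ Φ x (EuclideanSpace.single i 1))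
      (fderiv ℝ Φ x (EuclideanSpace.single j 1))) (x : E n) (i j : Fin n) :
    g x i j = ∑ a, pd i (fun y => Φ y a) x * pd j (fun y => Φ y a) x := by
  rw [hg, PiLp.inner_apply]
  refine Finset.sum_congr rfl fun a _ => ?_
  rw [fderiv_apply_coord ((h1.differentiable (by simp)) x),
    fderiv_apply_coord ((h1.differentiable (by simp)) x)]
  simp [mul_comm]

lemma ginv_eq (h1 : ContDiff ℝ ∞ Φ) (h2 : ContDiff ℝ ∞ Φ.symm)
    (hg : ∀ x i j, g x i j = ∑ a, pd i (fun y => Φ y a) x * pd j (fun y => Φ y a) x) (x : E n) :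
    ginv g x = Matrix.of (fun k l => ∑ b, Ai Φ k b x * Ai Φ l b x) := by
  unfold ginv
  apply Matrix.inv_eq_right_inv
  ext i j
  rw [Matrix.mul_apply, Matrix.one_apply]
  simp only [hg, Matrix.of_apply]
  have : ∀ k, (∑ a, pd i (fun y => Φ y a) x * pd k (fun y => Φ y a) x) *
      ∑ b, Ai Φ k b x * Ai Φ j b x =
      ∑ a, ∑ b, pd i (fun y => Φ y a) x * Ai Φ j b x * (pd k (fun y => Φ y a) x * Ai Φ k b x) := by
    intro k
    rw [Finset.sum_mul_sum]
    refine Finset.sum_congr rfl fun a _ => Finset.sum_congr rfl fun b _ => ?_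
    ring
  rw [Finset.sum_congr rfl fun k _ => this k, Finset.sum_comm]
  have h3 : ∀ a, ∑ k, ∑ b, pd i (fun y => Φ y a) x * Ai Φ j b x *
      (pd k (fun y => Φ y a) x * Ai Φ k b x) = Ai Φ j a x * pd i (fun y => Φ y a) x := by
    intro a
    rw [Finset.sum_comm]
    simp only [← Finset.mul_sum, mul_Ai h1 h2]
    simp [mul_comm]
  rw [Finset.sum_congr rfl fun a _ => h3 a, Ai_mul h1 h2]
  simp [eq_comm]

lemma pd_g (h1 : ContDiff ℝ ∞ Φ)
    (hg : ∀ x i j, g x i j = ∑ a, pd i (fun y => Φ y a) x * pd j (fun y => Φ y a) x)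
    (m i j : Fin n) (x : E n) :
    pd m (fun y => g y i j) x = ∑ a, (pd m (pd i (fun y => Φ y a)) x * pd j (fun y => Φ y a) x
      + pd i (fun y => Φ y a) x * pd m (pd j (fun y => Φ y a)) x) := by
  have hd : ∀ a i, Differentiable ℝ (pd i (fun y => Φ y a)) := fun a i =>
    (contDiff_pd i (contDiff_coord h1 a)).differentiable (by simp)
  have e : (fun y => g y i j) = fun y => ∑ a, pd i (fun y => Φ y a) y * pd j (fun y => Φ y a) y := by
    funext y; rw [hg]
  rw [e, pd_sum]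
  · refine Finset.sum_congr rfl fun a _ => ?_
    rw [pd_mul _ (hd a i x) (hd a j x)]
  · intro a _
    exact (hd a i x).fun_mul (hd a j x)

lemma Gam_eq (h1 : ContDiff ℝ ∞ Φ) (h2 : ContDiff ℝ ∞ Φ.symm)
    (hg : ∀ x i j, g x i j = ∑ a, pd i (fun y => Φ y a) x * pd j (fun y => Φ y a) x)
    (k i j : Fin n) (x : E n) :
    Gam g k i j x = ∑ a, Ai Φ k a x * pd i (pd j (fun y => Φ y a)) x := by
  unfold Gam
  have e : ∀ l, pd i (fun y => g y j l) x + pd j (fun y => g y i l) x - pd l (fun y => g y i j) x =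
      2 * ∑ a, pd i (pd j (fun y => Φ y a)) x * pd l (fun y => Φ y a) x := by
    intro l
    rw [pd_g h1 hg, pd_g h1 hg, pd_g h1 hg, ← Finset.sum_add_distrib, ← Finset.sum_sub_distrib,
      Finset.mul_sum]
    refine Finset.sum_congr rfl fun a _ => ?_
    have c1 := pd_comm i l (contDiff_coord h1 a) x
    have c2 := pd_comm j l (contDiff_coord h1 a) x
    have c3 := pd_comm i j (contDiff_coord h1 a) x
    rw [c1, c2, c3]
    ring
  simp only [e]
  rw [ginv_eq h1 h2 hg]
  simp only [Matrix.of_apply]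
  have h3 : ∀ l, (∑ b, Ai Φ k b x * Ai Φ l b x) *
      (2 * ∑ a, pd i (pd j (fun y => Φ y a)) x * pd l (fun y => Φ y a) x) =
      2 * ∑ b, ∑ a, (Ai Φ k b x * pd i (pd j (fun y => Φ y a)) x) *
        (pd l (fun y => Φ y a) x * Ai Φ l b x) := by
    intro l
    rw [mul_left_comm, Finset.sum_mul_sum]
    congr 1
    refine Finset.sum_congr rfl fun a _ => Finset.sum_congr rfl fun b _ => ?_
    ring
  rw [Finset.sum_congr rfl fun l _ => h3 l, ← Finset.mul_sum, Finset.sum_comm, ← mul_assoc]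
  norm_num
  refine Finset.sum_congr rfl fun b _ => ?_
  rw [Finset.sum_comm]
  simp only [← Finset.mul_sum, mul_Ai h1 h2]
  simp


lemma pd_Ai (h1 : ContDiff ℝ ∞ Φ) (h2 : ContDiff ℝ ∞ Φ.symm)
    (hg : ∀ x i j, g x i j = ∑ a, pd i (fun y => Φ y a) x * pd j (fun y => Φ y a) x)
    (m k c : Fin n) (x : E n) :
    pd m (Ai Φ k c) x = - ∑ i, Gam g k m i x * Ai Φ i c x := by
  have hd : ∀ a i, Differentiable ℝ (pd i (fun y => Φ y a)) := fun a i =>
    (contDiff_pd i (contDiff_coord h1 a)).differentiable (by simp)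
  have hA : ∀ k a, Differentiable ℝ (Ai Φ k a) := fun k a =>
    (contDiff_Ai h1 h2 k a).differentiable (by simp)
  have key : ∀ i, ∑ a, pd m (Ai Φ k a) x * pd i (fun y => Φ y a) x = - Gam g k m i x := by
    intro i
    have e : (fun y => ∑ a, Ai Φ k a y * pd i (fun y => Φ y a) y) =
        fun _ => (if k = i then (1:ℝ) else 0) := by
      funext y; exact Ai_mul h1 h2 k i y
    have h := congrArg (fun f => pd m f x) e
    simp only [pd_const] at h
    rw [pd_sum] at h
    · rw [Gam_eq h1 h2 hg]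
      have : ∀ a, pd m (fun y => Ai Φ k a y * pd i (fun y => Φ y a) y) x =
          pd m (Ai Φ k a) x * pd i (fun y => Φ y a) x
            + Ai Φ k a x * pd m (pd i (fun y => Φ y a)) x := fun a =>
        pd_mul _ (hA k a x) (hd a i x)
      rw [Finset.sum_congr rfl fun a _ => this a, Finset.sum_add_distrib] at h
      linarith
    · intro a _
      exact (hA k a x).fun_mul (hd a i x)
  have h3 : ∑ i, (∑ a, pd m (Ai Φ k a) x * pd i (fun y => Φ y a) x) * Ai Φ i c x =
      pd m (Ai Φ k c) x := by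
    have : ∀ i, (∑ a, pd m (Ai Φ k a) x * pd i (fun y => Φ y a) x) * Ai Φ i c x =
        ∑ a, pd m (Ai Φ k a) x * (pd i (fun y => Φ y a) x * Ai Φ i c x) := by
      intro i
      rw [Finset.sum_mul]
      exact Finset.sum_congr rfl fun a _ => by ring
    rw [Finset.sum_congr rfl fun i _ => this i, Finset.sum_comm]
    simp only [← Finset.mul_sum, mul_Ai h1 h2]
    simp
  rw [← h3]
  simp only [key]
  rw [← Finset.sum_neg_distrib]
  exact Finset.sum_congr rfl fun i _ => by ring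

lemma pd_Gam_eq (h1 : ContDiff ℝ ∞ Φ) (h2 : ContDiff ℝ ∞ Φ.symm)
    (hg : ∀ x i j, g x i j = ∑ a, pd i (fun y => Φ y a) x * pd j (fun y => Φ y a) x)
    (m k i j : Fin n) (x : E n) :
    pd m (Gam g k i j) x = - ∑ p, Gam g k m p x * Gam g p i j x
      + ∑ a, Ai Φ k a x * pd m (pd i (pd j (fun y => Φ y a))) x := by
  have hd : ∀ a i j, Differentiable ℝ (pd i (pd j (fun y => Φ y a))) := fun a i j =>
    (contDiff_pd i (contDiff_pd j (contDiff_coord h1 a))).differentiable (by simp)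
  have hA : ∀ k a, Differentiable ℝ (Ai Φ k a) := fun k a =>
    (contDiff_Ai h1 h2 k a).differentiable (by simp)
  have e : Gam g k i j = fun y => ∑ a, Ai Φ k a y * pd i (pd j (fun y => Φ y a)) y := by
    funext y; exact Gam_eq h1 h2 hg k i j y
  conv_lhs => rw [e]
  rw [pd_sum]
  · have : ∀ a, pd m (fun y => Ai Φ k a y * pd i (pd j (fun y => Φ y a)) y) x =
        pd m (Ai Φ k a) x * pd i (pd j (fun y => Φ y a)) x
          + Ai Φ k a x * pd m (pd i (pd j (fun y => Φ y a))) x := fun a =>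
      pd_mul _ (hA k a x) (hd a i j x)
    rw [Finset.sum_congr rfl fun a _ => this a, Finset.sum_add_distrib]
    congr 1
    simp only [pd_Ai h1 h2 hg]
    have h4 : ∀ p, Gam g k m p x * Gam g p i j x =
        ∑ a, Gam g k m p x * Ai Φ p a x * pd i (pd j (fun y => Φ y a)) x := by
      intro p
      rw [Gam_eq h1 h2 hg p i j, Finset.mul_sum]
      exact Finset.sum_congr rfl fun a _ => by ring
    rw [Finset.sum_congr rfl fun p _ => h4 p, Finset.sum_comm, ← Finset.sum_neg_distrib]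
    refine Finset.sum_congr rfl fun a _ => ?_
    rw [neg_mul, Finset.sum_mul]
  · intro a _
    exact (hA k a x).fun_mul (hd a i j x)

lemma RmUp_eq_zero (h1 : ContDiff ℝ ∞ Φ) (h2 : ContDiff ℝ ∞ Φ.symm)
    (hg : ∀ x i j, g x i j = ∑ a, pd i (fun y => Φ y a) x * pd j (fun y => Φ y a) x)
    (l k i j : Fin n) (x : E n) : RmUp g l k i j x = 0 := by
  unfold RmUp
  rw [pd_Gam_eq h1 h2 hg, pd_Gam_eq h1 h2 hg, Finset.sum_sub_distrib]
  have : ∀ a, pd i (pd j (pd k (fun y => Φ y a))) x = pd j (pd i (pd k (fun y => Φ y a))) x :=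
    fun a => pd_comm i j (contDiff_pd k (contDiff_coord h1 a)) x
  simp only [this]
  ring

end iso

/-- A metric isometric to the Euclidean one has vanishing scalar curvature. -/
lemma Scal_eq_zero_of_isometric {g : MetricField n} (h : IsIsometricToEuclidean g) (x : E n) :
    Scal g x = 0 := by
  obtain ⟨Φ, h1, h2, hg⟩ := h
  have hg' : ∀ x i j, g x i j = ∑ a, pd i (fun y => Φ y a) x * pd j (fun y => Φ y a) x :=
    fun x i j => g_eq h1 hg x i j
  have hR : ∀ i j k l x, Rm g i j k l x = 0 := fun i j k l x => by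
    unfold Rm
    exact Finset.sum_eq_zero fun m _ => by rw [RmUp_eq_zero h1 h2 hg', mul_zero]
  unfold Scal Ric
  simp [hR]

end flat

/-- **Rigidity fails for the Gauss-Bonnet-Chern mass in every dimension `n ≥ 5`**, even among
metrics of positive scalar curvature. -/
theorem result (n : ℕ) (hn : 5 ≤ n) : ∃ (g : MetricField n) (τ : ℝ),
    IsRiemannian g ∧ IsComplete g ∧ ((n : ℝ) - 4) / 3 < τ ∧ IsAsymptoticallyFlat g τ ∧
    IntegrableL2 g ∧ (∀ x, L2 g x = 0) ∧ (∀ x, 0 < Scal g x) ∧ HasGBCMass g 0 ∧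
    ¬ IsIsometricToEuclidean g := by
  let o : Fin n := ⟨0, by omega⟩
  let m : ℕ := (n - 3) / 2
  have hm : 1 ≤ m := by simp only [m]; omega
  have hmn : 2 * m + 2 ≤ n - 1 := by simp only [m]; omega
  have hm4 : n - 4 ≤ 2 * m := by simp only [m]; omega
  have hL2 : ∀ x, L2 (G o (Nf m)) x = 0 := L2_G o (contDiff_Nf m) (Nf_pos m)
  refine ⟨G o (Nf m), 2 * m, isRiemannian_G o m, isComplete_G o m, ?_, isAsymptoticallyFlat_G o m,
    ?_, hL2, Scal_pos o m hm hmn, hasGBCMass_G o m, ?_⟩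
  · have h1 : ((n - 4 : ℕ) : ℝ) ≤ ((2 * m : ℕ) : ℝ) := by exact_mod_cast hm4
    rw [Nat.cast_sub (by omega)] at h1
    push_cast at h1
    have h2 : (5 : ℝ) ≤ n := by exact_mod_cast hn
    linarith
  · unfold IntegrableL2
    simp only [hL2, zero_mul]
    exact integrable_zero _ _ _
  · intro h
    have h1 := Scal_eq_zero_of_isometric h 0
    have h2 := Scal_pos o m hm hmn 0
    linarith

end Pool.Agent.Results.MP_f5d73e_gt.LapseCounterexample
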